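import Mathlib

set_option autoImplicit false

namespace Pool.Agent.Lib.MP_3fdae4_co

open Finset

theorem polar (a b : ℝ) : ∃ r c s : ℝ, 0 ≤ r ∧ c ^ 2 + s ^ 2 = 1 ∧ a = r * c ∧ b = r * s := by
  by_cases h : a ^ 2 + b ^ 2 = 0
  · have ha : a = 0 := by nlinarith [sq_nonneg a, sq_nonneg b]
    have hb : b = 0 := by nlinarith [sq_nonneg a, sq_nonneg b]
    exact ⟨0, 1, 0, le_rfl, by norm_num, by simp [ha], by simp [hb]⟩
  · have hp : 0 < a ^ 2 + b ^ 2 := lt_of_le_of_ne (by positivity) (Ne.symm h)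
    have hr : 0 < Real.sqrt (a ^ 2 + b ^ 2) := Real.sqrt_pos.mpr hp
    have h2 : Real.sqrt (a ^ 2 + b ^ 2) ^ 2 = a ^ 2 + b ^ 2 := Real.sq_sqrt hp.le
    refine ⟨Real.sqrt (a ^ 2 + b ^ 2), a / Real.sqrt (a ^ 2 + b ^ 2),
      b / Real.sqrt (a ^ 2 + b ^ 2), hr.le, ?_, ?_, ?_⟩
    · rw [div_pow, div_pow, h2]; field_simp
    · field_simp
    · field_simp

theorem poly_gap (t : ℝ) : 2 / 9 + 11 / 9 * t ^ 2 - 4 / 9 * t ^ 4 - |t| =
    4 / 9 * (|t| - 1 / 2) ^ 2 * (1 - |t|) * (|t| + 2) := by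
  have h2 : t ^ 2 = |t| ^ 2 := (sq_abs t).symm
  have h4 : t ^ 4 = |t| ^ 4 := by
    have : t ^ 4 = (t ^ 2) ^ 2 := by ring
    rw [this, h2]; ring
  rw [h2, h4]; ring

theorem dsum_mul {V : Type} [Fintype V] (f g : V → ℝ) :
    ∑ i, ∑ j, f i * g j = (∑ i, f i) * (∑ j, g j) := by
  rw [Finset.sum_mul_sum]

theorem analysis {V : Type} [Fintype V] (r c s : V → ℝ) (M : V → V → ℝ)
    (hr : ∀ i, 0 ≤ r i) (hcs : ∀ i, c i ^ 2 + s i ^ 2 = 1)
    (hM : ∀ i j, M i j = 0 ∨ M i j = 1)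
    (ha : ∑ i, r i * c i = 0) (hb : ∑ i, r i * s i = 0)
    (haa : ∑ i, (r i * c i) ^ 2 = 1) (hbb : ∑ i, (r i * s i) ^ 2 = 1)
    (hab : ∑ i, (r i * c i) * (r i * s i) = 0)
    (hq : 2 * (Fintype.card V : ℝ) / 3 ≤
      ∑ i, ∑ j, M i j * ((r i * c i) * (r j * c j) + (r i * s i) * (r j * s j))) :
    (∃ ρ : ℝ, 0 < ρ ∧ ∀ i, r i = ρ) ∧
    (∀ i j, |c i * c j + s i * s j| = 1 / 2 ∨ |c i * c j + s i * s j| = 1) ∧
    (∀ i j, M i j = 1 ↔ 0 < c i * c j + s i * s j) := by
  classical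
  set n : ℝ := (Fintype.card V : ℝ) with hn
  let t : V → V → ℝ := fun i j => c i * c j + s i * s j
  have ht1 : ∀ i j, |t i j| ≤ 1 := by
    intro i j
    rw [abs_le]
    constructor <;>
      nlinarith [hcs i, hcs j, sq_nonneg (c i - c j), sq_nonneg (s i - s j),
        sq_nonneg (c i + c j), sq_nonneg (s i + s j)]
  let T1 : V → V → ℝ := fun i j =>
    r i * r j * |t i j| + r i * r j * t i j - 2 * (M i j * (r i * r j * t i j))
  let T2 : V → V → ℝ := fun i j =>
    r i * r j * (2 / 9 + 11 / 9 * t i j ^ 2 - 4 / 9 * t i j ^ 4 - |t i j|)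
  have hT1 : ∀ i j, 0 ≤ T1 i j := by
    intro i j
    have hrr : 0 ≤ r i * r j := mul_nonneg (hr i) (hr j)
    have h1 := mul_nonneg hrr (sub_nonneg.mpr (le_abs_self (t i j)))
    have h2 := mul_nonneg hrr (sub_nonneg.mpr (neg_abs_le (t i j)))
    rcases hM i j with h | h <;> simp only [T1, h] <;> nlinarith
  have hT2 : ∀ i j, 0 ≤ T2 i j := by
    intro i j
    simp only [T2]
    rw [poly_gap]
    have := ht1 i j
    have hrr : 0 ≤ r i * r j := mul_nonneg (hr i) (hr j)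
    have : 0 ≤ 1 - |t i j| := by linarith
    positivity
  let C2 : V → ℝ := fun i => c i ^ 2 - s i ^ 2
  let S2 : V → ℝ := fun i => 2 * c i * s i
  let C4 : V → ℝ := fun i => C2 i ^ 2 - S2 i ^ 2
  let S4 : V → ℝ := fun i => 2 * C2 i * S2 i
  have hcs2 : ∀ i, C2 i ^ 2 + S2 i ^ 2 = 1 := by
    intro i
    have : C2 i ^ 2 + S2 i ^ 2 = (c i ^ 2 + s i ^ 2) ^ 2 := by simp only [C2, S2]; ring
    rw [this, hcs i]; norm_num
  have hf : ∀ i j, 2 / 9 + 11 / 9 * t i j ^ 2 - 4 / 9 * t i j ^ 4 =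
      2 / 3 + 7 / 18 * (C2 i * C2 j + S2 i * S2 j) - 1 / 18 * (C4 i * C4 j + S4 i * S4 j) := by
    intro i j
    have e2 : C2 i * C2 j + S2 i * S2 j = 2 * t i j ^ 2 - 1 := by
      have : C2 i * C2 j + S2 i * S2 j =
          2 * t i j ^ 2 - (c i ^ 2 + s i ^ 2) * (c j ^ 2 + s j ^ 2) := by
        simp only [C2, S2, t]; ring
      rw [this, hcs i, hcs j]; ring
    have e4 : C4 i * C4 j + S4 i * S4 j = 2 * (2 * t i j ^ 2 - 1) ^ 2 - 1 := by
      have : C4 i * C4 j + S4 i * S4 j = 2 * (C2 i * C2 j + S2 i * S2 j) ^ 2 -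
          (C2 i ^ 2 + S2 i ^ 2) * (C2 j ^ 2 + S2 j ^ 2) := by
        simp only [C4, S4]; ring
      rw [this, hcs2 i, hcs2 j, e2]; ring
    rw [e2, e4]; ring
  set R := ∑ i, r i with hR
  set X2 := ∑ i, r i * C2 i with hX2
  set Y2 := ∑ i, r i * S2 i with hY2
  set X4 := ∑ i, r i * C4 i with hX4
  set Y4 := ∑ i, r i * S4 i with hY4
  set Q := ∑ i, ∑ j, M i j * ((r i * c i) * (r j * c j) + (r i * s i) * (r j * s j)) with hQ
  have htot : ∑ i, ∑ j, (T1 i j + T2 i j) =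
      2 / 3 * (R * R) + 7 / 18 * (X2 * X2 + Y2 * Y2) - 1 / 18 * (X4 * X4 + Y4 * Y4) - 2 * Q := by
    have e : ∀ i j, T1 i j + T2 i j =
        2 / 3 * (r i * r j) + 7 / 18 * ((r i * C2 i) * (r j * C2 j) + (r i * S2 i) * (r j * S2 j))
        - 1 / 18 * ((r i * C4 i) * (r j * C4 j) + (r i * S4 i) * (r j * S4 j))
        - 2 * (M i j * ((r i * c i) * (r j * c j) + (r i * s i) * (r j * s j)))
        + ((r i * c i) * (r j * c j) + (r i * s i) * (r j * s j)) := by
      intro i j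
      have := hf i j
      simp only [T1, T2]
      have e2 : r i * r j * (2 / 9 + 11 / 9 * t i j ^ 2 - 4 / 9 * t i j ^ 4 - |t i j|) =
          r i * r j * (2 / 9 + 11 / 9 * t i j ^ 2 - 4 / 9 * t i j ^ 4) - r i * r j * |t i j| := by
        ring
      rw [e2, this]
      simp only [t]
      ring
    simp_rw [e]
    simp only [Finset.sum_add_distrib, Finset.sum_sub_distrib, ← Finset.mul_sum]
    simp only [← Finset.sum_mul, ← hR, ← hX2, ← hY2, ← hX4, ← hY4, ha, hb]
    rw [hQ]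
    ring
  have hrr : ∑ i, r i ^ 2 = 2 := by
    have : ∑ i, r i ^ 2 = ∑ i, ((r i * c i) ^ 2 + (r i * s i) ^ 2) := by
      apply Finset.sum_congr rfl
      intro i _
      have := hcs i
      calc r i ^ 2 = r i ^ 2 * (c i ^ 2 + s i ^ 2) := by rw [this]; ring
        _ = _ := by ring
    rw [this, Finset.sum_add_distrib, haa, hbb]; norm_num
  have hrC : ∑ i, r i * (r i * C2 i) = 0 := by
    have : ∑ i, r i * (r i * C2 i) = ∑ i, ((r i * c i) ^ 2 - (r i * s i) ^ 2) := by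
      apply Finset.sum_congr rfl
      intro i _
      simp only [C2]; ring
    rw [this, Finset.sum_sub_distrib, haa, hbb]; norm_num
  have hrS : ∑ i, r i * (r i * S2 i) = 0 := by
    have : ∑ i, r i * (r i * S2 i) = 2 * ∑ i, (r i * c i) * (r i * s i) := by
      rw [Finset.mul_sum]
      apply Finset.sum_congr rfl
      intro i _
      simp only [S2]; ring
    rw [this, hab]; norm_num
  let d : V → ℝ := fun i => 1 - R / 2 * r i
  set δ := ∑ i, d i ^ 2 with hδ
  have hδe : δ = n - R * R / 2 := by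
    have : ∀ i, d i ^ 2 = 1 - R * r i + R * R / 4 * r i ^ 2 := by intro i; simp only [d]; ring
    simp only [hδ, this, Finset.sum_add_distrib, Finset.sum_sub_distrib, ← Finset.mul_sum, hrr,
      ← hR, Finset.sum_const, Finset.card_univ, nsmul_eq_mul, mul_one, ← hn]
    ring
  have hXd : X2 = ∑ i, d i * (r i * C2 i) := by
    have : ∀ i, d i * (r i * C2 i) = r i * C2 i - R / 2 * (r i * (r i * C2 i)) := by
      intro i; simp only [d]; ring
    simp only [this, Finset.sum_sub_distrib, ← Finset.mul_sum, hrC, ← hX2]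
    ring
  have hYd : Y2 = ∑ i, d i * (r i * S2 i) := by
    have : ∀ i, d i * (r i * S2 i) = r i * S2 i - R / 2 * (r i * (r i * S2 i)) := by
      intro i; simp only [d]; ring
    simp only [this, Finset.sum_sub_distrib, ← Finset.mul_sum, hrS, ← hY2]
    ring
  have cs1 := Finset.sum_mul_sq_le_sq_mul_sq univ d (fun i => r i * C2 i)
  have cs2 := Finset.sum_mul_sq_le_sq_mul_sq univ d (fun i => r i * S2 i)
  rw [← hXd, ← hδ] at cs1
  rw [← hYd, ← hδ] at cs2
  have hsum2 : ∑ i, (r i * C2 i) ^ 2 + ∑ i, (r i * S2 i) ^ 2 = 2 := by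
    rw [← Finset.sum_add_distrib, ← hrr]
    apply Finset.sum_congr rfl
    intro i _
    calc (r i * C2 i) ^ 2 + (r i * S2 i) ^ 2 = r i ^ 2 * (C2 i ^ 2 + S2 i ^ 2) := by ring
      _ = _ := by rw [hcs2 i]; ring
  have hXY : X2 * X2 + Y2 * Y2 ≤ 2 * δ := by
    calc X2 * X2 + Y2 * Y2 = X2 ^ 2 + Y2 ^ 2 := by ring
      _ ≤ δ * ∑ i, (r i * C2 i) ^ 2 + δ * ∑ i, (r i * S2 i) ^ 2 := add_le_add cs1 cs2
      _ = 2 * δ := by rw [← mul_add, hsum2]; ring
  have hδ0 : 0 ≤ δ := Finset.sum_nonneg (fun i _ => sq_nonneg _)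
  have htot0 : 0 ≤ ∑ i, ∑ j, (T1 i j + T2 i j) :=
    Finset.sum_nonneg (fun i _ => Finset.sum_nonneg (fun j _ => add_nonneg (hT1 i j) (hT2 i j)))
  have h44 : 0 ≤ X4 * X4 + Y4 * Y4 := add_nonneg (mul_self_nonneg _) (mul_self_nonneg _)
  have hδz : δ = 0 := by linarith
  have htz : ∑ i, ∑ j, (T1 i j + T2 i j) = 0 := by linarith
  have hd : ∀ i, R / 2 * r i = 1 := by
    intro i
    have := (Finset.sum_eq_zero_iff_of_nonneg (fun i _ => sq_nonneg (d i))).mp hδz i (mem_univ i)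
    have := pow_eq_zero_iff (two_ne_zero) |>.mp this
    simp only [d] at this
    linarith
  have hR0 : 0 ≤ R := Finset.sum_nonneg (fun i _ => hr i)
  have hRpos : 0 < R := by
    rcases hR0.eq_or_lt with h | h
    · exfalso
      have hne : Nonempty V := by
        by_contra hV
        rw [not_nonempty_iff] at hV
        simp at hrr
      obtain ⟨i⟩ := hne
      have := hd i
      rw [← h] at this
      simp at this
    · exact h
  have hri : ∀ i, r i = 2 / R := by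
    intro i
    have := hd i
    field_simp
    linarith
  have hrpos : ∀ i, 0 < r i := fun i => by rw [hri i]; positivity
  have hz : ∀ i j, T1 i j = 0 ∧ T2 i j = 0 := by
    intro i j
    have h1 := (Finset.sum_eq_zero_iff_of_nonneg (fun i _ =>
      Finset.sum_nonneg (fun j _ => add_nonneg (hT1 i j) (hT2 i j)))).mp htz i (mem_univ i)
    have h2 := (Finset.sum_eq_zero_iff_of_nonneg (fun j _ =>
      add_nonneg (hT1 i j) (hT2 i j))).mp h1 j (mem_univ j)
    constructor <;> linarith [hT1 i j, hT2 i j]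
  have habs : ∀ i j, |t i j| = 1 / 2 ∨ |t i j| = 1 := by
    intro i j
    have h2 := (hz i j).2
    simp only [T2] at h2
    rw [poly_gap] at h2
    have hrr : 0 < r i * r j := mul_pos (hrpos i) (hrpos j)
    have h3 : 0 < |t i j| + 2 := by positivity
    simp only [mul_eq_zero, hrr.ne', h3.ne', false_or, or_false] at h2
    rcases h2 with (h | h) | h
    · norm_num at h
    · left
      have := pow_eq_zero_iff (two_ne_zero) |>.mp h
      linarith
    · right; linarith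
  refine ⟨⟨2 / R, by positivity, hri⟩, habs, ?_⟩
  intro i j
  have h1 := (hz i j).1
  have hrr : 0 < r i * r j := mul_pos (hrpos i) (hrpos j)
  have h2 : |t i j| + t i j - 2 * (M i j * t i j) = 0 := by
    have : T1 i j = (r i * r j) * (|t i j| + t i j - 2 * (M i j * t i j)) := by
      simp only [T1]; ring
    rw [this] at h1
    exact (mul_eq_zero.mp h1).resolve_left hrr.ne'
  have h3 : 0 < |t i j| := by rcases habs i j with h | h <;> rw [h] <;> norm_num
  show M i j = 1 ↔ 0 < t i j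
  rcases hM i j with h | h
  · rw [h] at h2 ⊢
    constructor
    · intro h; norm_num at h
    · intro h; linarith
  · rw [h] at h2 ⊢
    constructor
    · intro _; linarith
    · intro _; rfl

end Pool.Agent.Lib.MP_3fdae4_co
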