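import Mathlib

set_option autoImplicit false

namespace Pool.Agent.Lib.MP_3fdae4_co

open Finset

noncomputable def px : Fin 6 → ℝ := ![1, 1 / 2, -1 / 2, -1, -1 / 2, 1 / 2]
def py : Fin 6 → ℝ := ![0, 1, 1, 0, -1, -1]

theorem hex_class (h α β : ℝ) (hh : h ^ 2 = 3 / 4) (h1 : α ^ 2 + β ^ 2 = 1)
    (h2 : |α| = 1 / 2 ∨ |α| = 1) : ∃ k : Fin 6, α = px k ∧ β = h * py k := by
  rcases h2 with h2 | h2
  · have hα : α ^ 2 = 1 / 4 := by rw [← sq_abs, h2]; norm_num
    have hβ : (β - h) * (β + h) = 0 := by nlinarith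
    rcases (abs_eq (by norm_num)).mp h2 with ha | ha <;>
      rcases mul_eq_zero.mp hβ with hb | hb
    · exact ⟨1, by simp [px, ha], by simp [py]; linarith⟩
    · exact ⟨5, by simp [px, ha], by simp [py]; linarith⟩
    · exact ⟨2, by simp [px, ha]; norm_num, by simp [py]; linarith⟩
    · exact ⟨4, by simp [px, ha]; norm_num, by simp [py]; linarith⟩
  · have hα : α ^ 2 = 1 := by rw [← sq_abs, h2]; norm_num
    have hβ : β = 0 := by
      have : β ^ 2 = 0 := by linarith
      exact pow_eq_zero_iff (two_ne_zero) |>.mp this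
    rcases (abs_eq (by norm_num)).mp h2 with ha | ha
    · exact ⟨0, by simp [px, ha], by simp [py, hβ]⟩
    · exact ⟨3, by simp [px, ha], by simp [py, hβ]⟩

theorem hex_adj (k l : Fin 6) :
    0 < px k * px l + 3 / 4 * (py k * py l) ↔ (k = l ∨ (SimpleGraph.cycleGraph 6).Adj k l) := by
  fin_cases k <;> fin_cases l <;> simp [px, py] <;> first | decide | (norm_num; done) | (norm_num; decide)

theorem sum_class {V : Type} [Fintype V] (k : V → Fin 6) (g : Fin 6 → ℝ) :
    ∑ i, g (k i) = ∑ y, ((univ.filter (fun i => k i = y)).card : ℝ) * g y := by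
  rw [← Finset.sum_fiberwise (s := univ) (g := k)]
  apply Finset.sum_congr rfl
  intro y _
  rw [Finset.sum_congr rfl (g := fun _ => g y)]
  · simp
  · intro i hi
    rw [(mem_filter.mp hi).2]

theorem hex_structure {V : Type} [Fintype V] [Nonempty V] (c s : V → ℝ)
    (hcs : ∀ i, c i ^ 2 + s i ^ 2 = 1)
    (habs : ∀ i j, |c i * c j + s i * s j| = 1 / 2 ∨ |c i * c j + s i * s j| = 1)
    (ha : ∑ i, c i = 0) (hb : ∑ i, s i = 0)
    (haa : ∑ i, c i ^ 2 = ∑ i, s i ^ 2) (hab : ∑ i, c i * s i = 0) :
    ∃ k : V → Fin 6,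
      (∀ i j, 0 < c i * c j + s i * s j ↔ (k i = k j ∨ (SimpleGraph.cycleGraph 6).Adj (k i) (k j))) ∧
      ∃ a b : ℕ, ∀ y, (univ.filter (fun i => k i = y)).card = ![a, b, a, b, a, b] y := by
  obtain ⟨o⟩ := ‹Nonempty V›
  set h : ℝ := Real.sqrt 3 / 2 with hh
  have hh2 : h ^ 2 = 3 / 4 := by
    rw [hh, div_pow, Real.sq_sqrt (by norm_num)]; norm_num
  have hhpos : 0 < h := by positivity
  let α : V → ℝ := fun i => c o * c i + s o * s i
  let β : V → ℝ := fun i => c o * s i - s o * c i
  have hαβ : ∀ i j, α i * α j + β i * β j = c i * c j + s i * s j := by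
    intro i j
    have : α i * α j + β i * β j = (c o ^ 2 + s o ^ 2) * (c i * c j + s i * s j) := by
      simp only [α, β]; ring
    rw [this, hcs o, one_mul]
  have hex : ∀ i, ∃ k : Fin 6, α i = px k ∧ β i = h * py k := by
    intro i
    apply hex_class h _ _ hh2 _ (habs o i)
    have := hαβ i i
    have h2 := hcs i
    nlinarith
  choose k hk1 hk2 using hex
  refine ⟨k, ?_, ?_⟩
  · intro i j
    rw [← hαβ, hk1, hk1, hk2, hk2, ← hex_adj]
    have : h * py (k i) * (h * py (k j)) = h ^ 2 * (py (k i) * py (k j)) := by ring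
    rw [this, hh2]
  · have e1 : ∑ i, px (k i) = 0 := by
      simp only [← hk1, α, Finset.sum_add_distrib, ← Finset.mul_sum, ha, hb]; ring
    have e2 : ∑ i, py (k i) = 0 := by
      have : h * ∑ i, py (k i) = 0 := by
        simp only [Finset.mul_sum, ← hk2, β]
        simp only [Finset.sum_sub_distrib, ← Finset.mul_sum, ha, hb]; ring
      exact (mul_eq_zero.mp this).resolve_left hhpos.ne'
    have e3 : ∑ i, (px (k i) ^ 2 - 3 / 4 * py (k i) ^ 2) = 0 := by
      have : ∀ i, px (k i) ^ 2 - 3 / 4 * py (k i) ^ 2 =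
          (c o ^ 2 - s o ^ 2) * (c i ^ 2) - (c o ^ 2 - s o ^ 2) * (s i ^ 2)
            + 4 * c o * s o * (c i * s i) := by
        intro i
        rw [← hh2, ← mul_pow, ← hk1, ← hk2]
        simp only [α, β]; ring
      simp only [this, Finset.sum_add_distrib, Finset.sum_sub_distrib, ← Finset.mul_sum, haa, hab]
      ring
    have e4 : ∑ i, px (k i) * py (k i) = 0 := by
      have : ∀ i, h * (px (k i) * py (k i)) =
          (c o ^ 2 - s o ^ 2) * (c i * s i) - c o * s o * (c i ^ 2) + c o * s o * (s i ^ 2) := by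
        intro i
        have : h * (px (k i) * py (k i)) = px (k i) * (h * py (k i)) := by ring
        rw [this, ← hk1, ← hk2]
        simp only [α, β]; ring
      have h2 : h * ∑ i, px (k i) * py (k i) = 0 := by
        rw [Finset.mul_sum]
        simp only [this, Finset.sum_add_distrib, Finset.sum_sub_distrib, ← Finset.mul_sum, haa, hab]
        ring
      exact (mul_eq_zero.mp h2).resolve_left hhpos.ne'
    rw [sum_class k px] at e1
    rw [sum_class k py] at e2
    rw [sum_class k (fun y => px y ^ 2 - 3 / 4 * py y ^ 2)] at e3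
    rw [sum_class k (fun y => px y * py y)] at e4
    simp only [Fin.sum_univ_six] at e1 e2 e3 e4
    set n0 := (univ.filter (fun i => k i = 0)).card with h0
    set n1 := (univ.filter (fun i => k i = 1)).card with h1
    set n2 := (univ.filter (fun i => k i = 2)).card with h2
    set n3 := (univ.filter (fun i => k i = 3)).card with h3
    set n4 := (univ.filter (fun i => k i = 4)).card with h4
    set n5 := (univ.filter (fun i => k i = 5)).card with h5
    simp [px, py] at e1 e2 e3 e4
    have f2 : n2 = n0 := by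
      have : (n2 : ℝ) = n0 := by linarith
      exact_mod_cast this
    have f4 : n4 = n0 := by
      have : (n4 : ℝ) = n0 := by linarith
      exact_mod_cast this
    have f3 : n3 = n1 := by
      have : (n3 : ℝ) = n1 := by linarith
      exact_mod_cast this
    have f5 : n5 = n1 := by
      have : (n5 : ℝ) = n1 := by linarith
      exact_mod_cast this
    refine ⟨n0, n1, ?_⟩
    intro y
    fin_cases y
    · exact h0.symm
    · exact h1.symm
    · exact h2.symm.trans f2
    · exact h3.symm.trans f3
    · exact h4.symm.trans f4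
    · exact h5.symm.trans f5

end Pool.Agent.Lib.MP_3fdae4_co
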