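import Pool.Agent.Lib.MP_3fdae4_co.Analysis
import Pool.Agent.Lib.MP_3fdae4_co.Hex

set_option autoImplicit false

namespace Pool.Agent.Lib.MP_3fdae4_co

open Finset Matrix

theorem orth_pair (x y z : ℝ) : ∃ p0 p1 p2 q0 q1 q2 : ℝ,
    p0 ^ 2 + p1 ^ 2 + p2 ^ 2 = 1 ∧ q0 ^ 2 + q1 ^ 2 + q2 ^ 2 = 1 ∧
    p0 * q0 + p1 * q1 + p2 * q2 = 0 ∧ p0 * x + p1 * y + p2 * z = 0 ∧
    q0 * x + q1 * y + q2 * z = 0 := by
  obtain ⟨r, c, s, _, hcs, hx, hy⟩ := polar x y
  obtain ⟨R, C, S, _, hCS, hr, hz⟩ := polar r z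
  refine ⟨-s, c, 0, S * c, S * s, -C, by nlinarith, ?_, by ring, by rw [hx, hy]; ring, ?_⟩
  · have : (S * c) ^ 2 + (S * s) ^ 2 + (-C) ^ 2 = S ^ 2 * (c ^ 2 + s ^ 2) + C ^ 2 := by ring
    rw [this, hcs]; linarith
  · have : S * c * x + S * s * y + -C * z = S * r * (c ^ 2 + s ^ 2) - C * z := by
      rw [hx, hy]; ring
    rw [this, hcs, hz, hr]; ring

theorem three_vectors {V : Type} [Fintype V] [DecidableEq V] (A : Matrix V V ℝ)
    (hA : A.IsHermitian) (h3 : 2 < Fintype.card V) :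
    ∃ (e : Fin 3 → V → ℝ) (μ : Fin 3 → ℝ),
      (∀ k l, e k ⬝ᵥ e l = if k = l then 1 else 0) ∧ (∀ k, A *ᵥ e k = μ k • e k) ∧
      (∀ k, hA.eigenvalues₀ ⟨2, h3⟩ ≤ μ k) := by
  let φ : Fin (Fintype.card V) ≃ V := Fintype.equivOfCardEq (Fintype.card_fin _)
  let ι : Fin 3 → Fin (Fintype.card V) := fun k => ⟨k, by omega⟩
  have hι : Function.Injective ι := by
    intro k l h
    simp only [ι, Fin.mk.injEq] at h
    exact Fin.ext h
  refine ⟨fun k => ⇑(hA.eigenvectorBasis (φ (ι k))), fun k => hA.eigenvalues (φ (ι k)), ?_, ?_, ?_⟩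
  · intro k l
    have := (orthonormal_iff_ite.mp hA.eigenvectorBasis.orthonormal) (φ (ι l)) (φ (ι k))
    rw [EuclideanSpace.inner_eq_star_dotProduct] at this
    simp only [star_trivial] at this
    rw [this]
    by_cases h : k = l
    · simp [h]
    · have : φ (ι l) ≠ φ (ι k) := fun h' => h (hι (φ.injective h')).symm
      simp [h, this]
  · intro k
    exact hA.mulVec_eigenvectorBasis _
  · intro k
    have : hA.eigenvalues (φ (ι k)) = hA.eigenvalues₀ (ι k) := by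
      simp [IsHermitian.eigenvalues, φ]
    simp only [this]
    apply hA.eigenvalues₀_antitone
    simp only [ι, Fin.mk_le_mk]
    omega

theorem two_vectors {V : Type} [Fintype V] [DecidableEq V] (A : Matrix V V ℝ)
    (hA : A.IsHermitian) (h3 : 2 < Fintype.card V) :
    ∃ a b : V → ℝ, ∑ i, a i = 0 ∧ ∑ i, b i = 0 ∧ ∑ i, a i ^ 2 = 1 ∧ ∑ i, b i ^ 2 = 1 ∧
      ∑ i, a i * b i = 0 ∧
      2 * hA.eigenvalues₀ ⟨2, h3⟩ ≤ ∑ i, ∑ j, A i j * (a i * a j + b i * b j) := by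
  obtain ⟨e, μ, he, hμ, hle⟩ := three_vectors A hA h3
  obtain ⟨p0, p1, p2, q0, q1, q2, hp, hq, hpq, hpx, hqx⟩ :=
    orth_pair (∑ i, e 0 i) (∑ i, e 1 i) (∑ i, e 2 i)
  have dot : ∀ x0 x1 x2 y0 y1 y2 : ℝ,
      (x0 • e 0 + x1 • e 1 + x2 • e 2) ⬝ᵥ (y0 • e 0 + y1 • e 1 + y2 • e 2) =
        x0 * y0 + x1 * y1 + x2 * y2 := by
    intro x0 x1 x2 y0 y1 y2
    simp [add_dotProduct, dotProduct_add, smul_dotProduct, dotProduct_smul, he]
    ring
  have quad : ∀ x0 x1 x2 : ℝ, x0 ^ 2 + x1 ^ 2 + x2 ^ 2 = 1 →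
      hA.eigenvalues₀ ⟨2, h3⟩ ≤
      (x0 • e 0 + x1 • e 1 + x2 • e 2) ⬝ᵥ (A *ᵥ (x0 • e 0 + x1 • e 1 + x2 • e 2)) := by
    intro x0 x1 x2 hx
    rw [mulVec_add, mulVec_add, mulVec_smul, mulVec_smul, mulVec_smul, hμ, hμ, hμ,
      smul_smul, smul_smul, smul_smul, dot]
    have h0 := mul_le_mul_of_nonneg_left (hle 0) (sq_nonneg x0)
    have h1 := mul_le_mul_of_nonneg_left (hle 1) (sq_nonneg x1)
    have h2 := mul_le_mul_of_nonneg_left (hle 2) (sq_nonneg x2)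
    have : hA.eigenvalues₀ ⟨2, h3⟩ = (x0 ^ 2 + x1 ^ 2 + x2 ^ 2) * hA.eigenvalues₀ ⟨2, h3⟩ := by
      rw [hx, one_mul]
    rw [this]
    nlinarith
  have sm : ∀ x0 x1 x2 : ℝ, ∑ i, (x0 • e 0 + x1 • e 1 + x2 • e 2) i =
      x0 * ∑ i, e 0 i + x1 * ∑ i, e 1 i + x2 * ∑ i, e 2 i := by
    intro x0 x1 x2
    simp [Finset.sum_add_distrib, Finset.mul_sum]
  set a := p0 • e 0 + p1 • e 1 + p2 • e 2 with ha
  set b := q0 • e 0 + q1 • e 1 + q2 • e 2 with hb
  refine ⟨a, b, by rw [ha, sm, hpx], by rw [hb, sm, hqx], ?_, ?_, ?_, ?_⟩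
  · have := dot p0 p1 p2 p0 p1 p2
    rw [← ha] at this
    simp only [dotProduct] at this
    simp only [sq] at hp ⊢
    rw [this, hp]
  · have := dot q0 q1 q2 q0 q1 q2
    rw [← hb] at this
    simp only [dotProduct] at this
    simp only [sq] at hq ⊢
    rw [this, hq]
  · have := dot p0 p1 p2 q0 q1 q2
    rw [← ha, ← hb] at this
    simp only [dotProduct] at this
    rw [this, hpq]
  · have h1 := quad p0 p1 p2 hp
    have h2 := quad q0 q1 q2 hq
    rw [← ha] at h1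
    rw [← hb] at h2
    have e : ∑ i, ∑ j, A i j * (a i * a j + b i * b j) = a ⬝ᵥ (A *ᵥ a) + b ⬝ᵥ (A *ᵥ b) := by
      simp only [dotProduct, mulVec, Finset.mul_sum, ← Finset.sum_add_distrib]
      apply Finset.sum_congr rfl
      intro i _
      apply Finset.sum_congr rfl
      intro j _
      ring
    rw [e]; linarith

theorem classes {V : Type} [Fintype V] [DecidableEq V] (G : SimpleGraph V) [DecidableRel G.Adj]
    (h3 : 2 < Fintype.card V)
    (h : (Fintype.card V : ℝ) / 3 - 1 ≤ (G.isHermitian_adjMatrix ℝ).eigenvalues₀ ⟨2, h3⟩) :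
    ∃ k : V → Fin 6,
      (∀ i j, G.Adj i j ↔ (i ≠ j ∧ (k i = k j ∨ (SimpleGraph.cycleGraph 6).Adj (k i) (k j)))) ∧
      ∃ a b : ℕ, ∀ y, (univ.filter (fun i => k i = y)).card = ![a, b, a, b, a, b] y := by
  obtain ⟨a, b, ha, hb, haa, hbb, hab, hq⟩ := two_vectors _ (G.isHermitian_adjMatrix ℝ) h3
  choose r c s hr hcs hac hbs using fun i => polar (a i) (b i)
  have ea : a = fun i => r i * c i := funext hac
  have eb : b = fun i => r i * s i := funext hbs
  subst ea eb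
  let M : V → V → ℝ := fun i j => G.adjMatrix ℝ i j + if i = j then 1 else 0
  have hM1 : ∀ i j, M i j = 1 ↔ (i = j ∨ G.Adj i j) := by
    intro i j
    simp only [M, SimpleGraph.adjMatrix_apply]
    by_cases hij : i = j
    · subst hij; simp
    · by_cases hadj : G.Adj i j <;> simp [hij, hadj]
  have hM : ∀ i j, M i j = 0 ∨ M i j = 1 := by
    intro i j
    simp only [M, SimpleGraph.adjMatrix_apply]
    by_cases hij : i = j
    · subst hij; simp
    · by_cases hadj : G.Adj i j <;> simp [hij, hadj]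
  have hQ : ∑ i, ∑ j, M i j * ((r i * c i) * (r j * c j) + (r i * s i) * (r j * s j)) =
      ∑ i, ∑ j, G.adjMatrix ℝ i j * ((r i * c i) * (r j * c j) + (r i * s i) * (r j * s j)) + 2 := by
    simp only [M, add_mul, Finset.sum_add_distrib, ite_mul, one_mul, zero_mul,
      Finset.sum_ite_eq, mem_univ, if_true]
    simp only [sq] at haa hbb
    rw [haa, hbb]; norm_num
  obtain ⟨⟨ρ, hρ, hrρ⟩, habs, hMpos⟩ := analysis r c s M hr hcs hM ha hb haa hbb hab
    (by rw [hQ]; linarith)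
  have : Nonempty V := Fintype.card_pos_iff.mp (by omega)
  simp only [hrρ] at ha hb haa hbb hab
  obtain ⟨k, hk, hcount⟩ := hex_structure c s hcs habs
    (by rw [← Finset.mul_sum] at ha; exact (mul_eq_zero.mp ha).resolve_left hρ.ne')
    (by rw [← Finset.mul_sum] at hb; exact (mul_eq_zero.mp hb).resolve_left hρ.ne')
    (by
      simp only [mul_pow, ← Finset.mul_sum] at haa hbb
      exact mul_left_cancel₀ (pow_ne_zero 2 hρ.ne') (haa.trans hbb.symm))
    (by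
      have : ∑ i, ρ * c i * (ρ * s i) = ρ ^ 2 * ∑ i, c i * s i := by
        rw [Finset.mul_sum]; apply Finset.sum_congr rfl; intro i _; ring
      rw [this] at hab
      exact (mul_eq_zero.mp hab).resolve_left (pow_ne_zero 2 hρ.ne'))
  refine ⟨k, ?_, hcount⟩
  intro i j
  rw [← hk, ← hMpos, hM1]
  constructor
  · intro hadj; exact ⟨hadj.ne, Or.inr hadj⟩
  · rintro ⟨hne, h | h⟩
    · exact absurd h hne
    · exact h

end Pool.Agent.Lib.MP_3fdae4_co
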